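import Pool.Agent.H68.Amp.Raag1

/-! # The kernels of the retractions: free quotients -/

set_option autoImplicit false

namespace Pool.Agent.H37.RG

open Pool.Agent.H68.Amp

variable {V : Type*} (Γ : SimpleGraph V) (S : Set V) (t : V)

/-- The subgroup of the link of `t` in `S`. -/
def lkS : Subgroup (Raag Γ) := par Γ {v | v ∈ S ∧ Γ.Adj v t}

theorem lkS_comm {g : Raag Γ} (hg : g ∈ lkS Γ S t) : g * gen Γ t = gen Γ t * g := by
  unfold lkS par at hg
  induction hg using Subgroup.closure_induction with
  | mem x hx =>
      obtain ⟨v, hv, rfl⟩ := hx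
      exact gen_comm Γ hv.2
  | one => simp
  | mul x y _ _ hx hy => rw [mul_assoc, hy, ← mul_assoc, hx, mul_assoc]
  | inv x _ hx =>
      rw [inv_mul_eq_iff_eq_mul, ← mul_assoc, hx, mul_assoc, mul_inv_cancel, mul_one]

/-- The action on the free group on the cosets of the link subgroup. -/
def act : Raag Γ →* MulAut (FreeGroup (Raag Γ ⧸ lkS Γ S t)) where
  toFun a := FreeGroup.freeGroupCongr (MulAction.toPerm a)
  map_one' := by
    ext x
    induction x using FreeGroup.induction_on with
    | C1 => simp
    | of x => simp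
    | inv_of x ih => simp
    | mul x y hx hy => rw [map_mul, hx, hy, map_mul]
  map_mul' a b := by
    ext x
    induction x using FreeGroup.induction_on with
    | C1 => simp
    | of x => simp [mul_smul]
    | inv_of x ih => simp [mul_smul]
    | mul x y hx hy => rw [map_mul, hx, hy, map_mul]

theorem act_of (a : Raag Γ) (q : Raag Γ ⧸ lkS Γ S t) :
    act Γ S t a (FreeGroup.of q) = FreeGroup.of (a • q) := by
  show FreeGroup.freeGroupCongr (MulAction.toPerm a) (FreeGroup.of q) = _
  simp

open Classical in
/-- The map to the semidirect product. -/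
noncomputable def phi : Raag Γ →* FreeGroup (Raag Γ ⧸ lkS Γ S t) ⋊[act Γ S t] Raag Γ :=
  raagLift Γ (fun v => if v ∈ S then SemidirectProduct.inr (gen Γ v)
    else if v = t then SemidirectProduct.inl (FreeGroup.of (QuotientGroup.mk 1)) else 1) (by
    have key : ∀ v, v ∈ S → Γ.Adj v t →
        (SemidirectProduct.inr (gen Γ v) * SemidirectProduct.inl
          (FreeGroup.of (QuotientGroup.mk 1)) :
          FreeGroup (Raag Γ ⧸ lkS Γ S t) ⋊[act Γ S t] Raag Γ) =
        SemidirectProduct.inl (FreeGroup.of (QuotientGroup.mk 1)) *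
          SemidirectProduct.inr (gen Γ v) := by
      intro v hv hvt
      have h1 : act Γ S t (gen Γ v) (FreeGroup.of (QuotientGroup.mk 1)) =
          FreeGroup.of (QuotientGroup.mk 1) := by
        rw [act_of]
        congr 1
        show QuotientGroup.mk (gen Γ v * 1) = _
        rw [mul_one, QuotientGroup.eq]
        rw [mul_one]
        exact Subgroup.inv_mem _ (gen_mem_par Γ ⟨hv, hvt⟩)
      have h2 := SemidirectProduct.inl_aut (φ := act Γ S t) (gen Γ v)
        (FreeGroup.of (QuotientGroup.mk 1))
      rw [h1] at h2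
      have h3 := congrArg (fun z => z * SemidirectProduct.inr (gen Γ v)) h2
      simp only [mul_assoc, ← map_mul, inv_mul_cancel, map_one, mul_one] at h3
      exact h3.symm
    intro u v huv
    by_cases hu : u ∈ S
    · by_cases hv : v ∈ S
      · rw [if_pos hu, if_pos hv, ← map_mul, ← map_mul, gen_comm Γ huv]
      · rw [if_pos hu, if_neg hv]
        by_cases hvt : v = t
        · subst hvt
          rw [if_pos rfl]
          exact key u hu huv
        · rw [if_neg hvt, mul_one, one_mul]
    · rw [if_neg hu]
      by_cases hut : u = t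
      · subst hut
        rw [if_pos rfl]
        by_cases hv : v ∈ S
        · rw [if_pos hv]
          exact (key v hv huv.symm).symm
        · rw [if_neg hv, if_neg huv.ne', mul_one, one_mul]
      · rw [if_neg hut, mul_one, one_mul])

variable {t}

theorem phi_mem {v : V} (h : v ∈ S) : phi Γ S t (gen Γ v) = SemidirectProduct.inr (gen Γ v) := by
  classical
  unfold phi
  rw [raagLift_gen, if_pos h]

theorem phi_t (h : t ∉ S) :
    phi Γ S t (gen Γ t) = SemidirectProduct.inl (FreeGroup.of (QuotientGroup.mk 1)) := by
  classical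
  unfold phi
  rw [raagLift_gen, if_neg h, if_pos rfl]

theorem phi_not {v : V} (h : v ∉ S) (h' : v ≠ t) : phi Γ S t (gen Γ v) = 1 := by
  classical
  unfold phi
  rw [raagLift_gen, if_neg h, if_neg h']

variable (t)

/-- Back to the right-angled Artin group. -/
def psi : FreeGroup (Raag Γ ⧸ lkS Γ S t) ⋊[act Γ S t] Raag Γ →* Raag Γ :=
  SemidirectProduct.lift
    (FreeGroup.lift (Quotient.lift (fun g : Raag Γ => g * gen Γ t * g⁻¹) (by
      intro a b hab
      have h1 : a⁻¹ * b ∈ lkS Γ S t := QuotientGroup.leftRel_apply.1 hab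
      have h2 := lkS_comm Γ S t h1
      show a * gen Γ t * a⁻¹ = b * gen Γ t * b⁻¹
      have h3 : b = a * (a⁻¹ * b) := by group
      generalize a⁻¹ * b = k at h1 h2 h3
      subst h3
      rw [mul_assoc a k, h2]
      group)))
    (MonoidHom.id _) (by
      intro g
      apply FreeGroup.ext_hom
      intro q
      induction q using QuotientGroup.induction_on with
      | H a =>
      simp only [MonoidHom.coe_comp, Function.comp_apply, MulEquiv.coe_toMonoidHom,
        MonoidHom.id_apply, MulAut.conj_apply, act_of, FreeGroup.lift_apply_of]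
      show g * a * gen Γ t * (g * a)⁻¹ = g * (a * gen Γ t * a⁻¹) * g⁻¹
      group)

theorem psi_inl : psi Γ S t (SemidirectProduct.inl (FreeGroup.of (QuotientGroup.mk 1))) =
    gen Γ t := by
  unfold psi
  rw [SemidirectProduct.lift_inl, FreeGroup.lift_apply_of]
  show 1 * gen Γ t * 1⁻¹ = gen Γ t
  simp

theorem psi_inr (g : Raag Γ) : psi Γ S t (SemidirectProduct.inr g) = g := by
  unfold psi
  rw [SemidirectProduct.lift_inr]
  rfl

variable {t}

theorem psi_phi (ht : t ∉ S) (a : Raag Γ) :
    psi Γ S t (phi Γ S t a) = ret Γ (insert t S) a := by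
  have h : (psi Γ S t).comp (phi Γ S t) = ret Γ (insert t S) := by
    apply raag_hom_ext
    intro v
    rw [MonoidHom.comp_apply]
    by_cases hv : v ∈ S
    · rw [phi_mem Γ S hv, psi_inr, ret_gen_mem Γ (Or.inr hv)]
    · by_cases hvt : v = t
      · subst hvt
        rw [phi_t Γ S ht, psi_inl, ret_gen_mem Γ (Or.inl rfl)]
      · rw [phi_not Γ S hv hvt, map_one, ret_gen_not]
        rintro (h | h)
        · exact hvt h
        · exact hv h
  rw [← h]
  rfl

theorem phi_right (a : Raag Γ) : (phi Γ S t a).right = ret Γ S a := by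
  have h : SemidirectProduct.rightHom.comp (phi Γ S t) = ret Γ S := by
    apply raag_hom_ext
    intro v
    rw [MonoidHom.comp_apply]
    by_cases hv : v ∈ S
    · rw [phi_mem Γ S hv, ret_gen_mem Γ hv]
      rfl
    · rw [ret_gen_not Γ hv]
      by_cases hvt : v = t
      · subst hvt
        rw [phi_t Γ S hv]
        rfl
      · rw [phi_not Γ S hv hvt]
        rfl
  rw [← h]
  rfl

theorem phi_ret (a : Raag Γ) : phi Γ S t (ret Γ (insert t S) a) = phi Γ S t a := by
  have h : (phi Γ S t).comp (ret Γ (insert t S)) = phi Γ S t := by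
    apply raag_hom_ext
    intro v
    rw [MonoidHom.comp_apply]
    by_cases hv : v ∈ insert t S
    · rw [ret_gen_mem Γ hv]
    · rw [ret_gen_not Γ hv, map_one, phi_not]
      · exact fun h => hv (Or.inr h)
      · exact fun h => hv (Or.inl h)
  exact DFunLike.congr_fun h a

/-- The homomorphism of the kernel of the retraction to a free group. -/
noncomputable def theta (S : Set V) (t : V) :
    (ret Γ S).ker →* FreeGroup (Raag Γ ⧸ lkS Γ S t) where
  toFun a := (phi Γ S t a.1).left
  map_one' := by
    show (phi Γ S t 1).left = 1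
    rw [map_one]
    rfl
  map_mul' := by
    rintro ⟨a, ha⟩ ⟨b, hb⟩
    show (phi Γ S t (a * b)).left = _
    rw [map_mul, SemidirectProduct.mul_left]
    have h1 : (phi Γ S t a).right = 1 := by
      rw [phi_right]
      exact ha
    rw [h1, map_one]
    rfl

theorem theta_eq_one (ht : t ∉ S) (a : (ret Γ S).ker) :
    theta Γ S t a = 1 ↔ ret Γ (insert t S) a.1 = 1 := by
  have h1 : (phi Γ S t a.1).right = 1 := by
    rw [phi_right]
    exact a.2
  constructor
  · intro h
    have h2 : phi Γ S t a.1 = 1 := SemidirectProduct.ext h h1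
    rw [← psi_phi Γ S ht, h2, map_one]
  · intro h
    show (phi Γ S t a.1).left = 1
    rw [← phi_ret, h, map_one]
    rfl

/-- A group with a homomorphism to a free group with trivial kernel is free. -/
theorem isFree_of_injective {G Q : Type*} [Group G] (f : G →* FreeGroup Q)
    (hf : Function.Injective f) : IsFreeGroup G := by
  have : IsFreeGroup f.range := subgroupIsFreeOfIsFree _
  exact IsFreeGroup.ofMulEquiv (MonoidHom.ofInjective hf).symm

end Pool.Agent.H37.RG
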