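import Pool.Agent.H37.RG.Trace
import Pool.Agent.H68.Amp.Raag1

/-! # Reduced syllable expressions in right-angled Artin groups -/

set_option autoImplicit false

namespace Pool.Agent.H37.RG

open Pool.Agent.H68.Amp

variable {V : Type*} (Γ : SimpleGraph V)

/-- The product of a list of syllables. -/
def sylProd (L : List (V × ℤ)) : Raag Γ := (L.map fun p => gen Γ p.1 ^ p.2).prod

/-- The trace of a list of syllables. -/
noncomputable def sylTr (L : List (V × ℤ)) : Tr Γ := (L.map fun p => Tr.of Γ p.1).prod

theorem sylProd_append (L M : List (V × ℤ)) :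
    sylProd Γ (L ++ M) = sylProd Γ L * sylProd Γ M := by
  simp [sylProd]

theorem sylProd_cons (p : V × ℤ) (M : List (V × ℤ)) :
    sylProd Γ (p :: M) = gen Γ p.1 ^ p.2 * sylProd Γ M := by
  simp [sylProd]

theorem sylProd_nil : sylProd Γ [] = 1 := rfl

theorem sylTr_append (L M : List (V × ℤ)) : sylTr Γ (L ++ M) = sylTr Γ L * sylTr Γ M := by
  simp [sylTr]

theorem sylTr_snoc (L : List (V × ℤ)) (p : V × ℤ) :
    sylTr Γ (L ++ [p]) = sylTr Γ L * Tr.of Γ p.1 := by
  simp [sylTr]

theorem sylTr_nil : sylTr Γ [] = 1 := rfl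

theorem mem_st {L : List (V × ℤ)} {D : Set V} (hD : (sylTr Γ L).st = some D) {v : V}
    (hv : v ∈ D) :
    ∃ (L1 : List (V × ℤ)) (e : ℤ) (L2 : List (V × ℤ)),
      L = L1 ++ (v, e) :: L2 ∧ ∀ p ∈ L2, Γ.Adj p.1 v := by
  induction L using List.reverseRecOn generalizing D with
  | nil =>
      rw [sylTr_nil, Tr.st_one, Option.some.injEq] at hD
      rw [← hD] at hv
      exact absurd hv (Set.notMem_empty v)
  | append_singleton L p ih =>
      obtain ⟨u, e⟩ := p
      rw [sylTr_snoc, Tr.st_mul_of] at hD
      cases hD' : (sylTr Γ L).st with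
      | none =>
          rw [hD'] at hD
          exact absurd hD (by simp [rd_none])
      | some D' =>
          rw [hD'] at hD
          by_cases hu : u ∈ D'
          · have := rd_some_mem (Γ := Γ) hu
            simp only at hD
            rw [this] at hD
            exact absurd hD (by simp)
          · have := rd_some_not (Γ := Γ) hu
            simp only at hD
            rw [this, Option.some.injEq] at hD
            rw [← hD] at hv
            rcases hv with rfl | ⟨hv, huv⟩
            · exact ⟨L, e, [], rfl, by simp⟩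
            · obtain ⟨L1, e', L2, rfl, h2⟩ := ih hD' hv
              refine ⟨L1, e', L2 ++ [(u, e)], by simp, ?_⟩
              intro p hp
              rw [List.mem_append, List.mem_singleton] at hp
              rcases hp with hp | rfl
              · exact h2 p hp
              · exact huv.symm

theorem st_none {L : List (V × ℤ)} (hD : (sylTr Γ L).st = none) :
    ∃ (L0 : List (V × ℤ)) (v : V) (e : ℤ) (L3 : List (V × ℤ)) (D : Set V),
      L = L0 ++ (v, e) :: L3 ∧ (sylTr Γ L0).st = some D ∧ v ∈ D := by
  induction L using List.reverseRecOn with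
  | nil =>
      rw [sylTr_nil, Tr.st_one] at hD
      exact absurd hD (by simp)
  | append_singleton L p ih =>
      obtain ⟨u, e⟩ := p
      rw [sylTr_snoc, Tr.st_mul_of] at hD
      cases hD' : (sylTr Γ L).st with
      | none =>
          obtain ⟨L0, v, e', L3, D, rfl, h1, h2⟩ := ih hD'
          exact ⟨L0, v, e', L3 ++ [(u, e)], D, by simp, h1, h2⟩
      | some D' =>
          rw [hD'] at hD
          by_cases hu : u ∈ D'
          · exact ⟨L, u, e, [], D', rfl, hD', hu⟩
          · have := rd_some_not (Γ := Γ) hu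
            simp only at hD
            rw [this] at hD
            exact absurd hD (by simp)

theorem sylProd_comm {L : List (V × ℤ)} {v : V} (h : ∀ p ∈ L, Γ.Adj p.1 v) (e : ℤ) :
    Commute (sylProd Γ L) (gen Γ v ^ e) := by
  induction L with
  | nil => exact Commute.one_left _
  | cons p L ih =>
      rw [sylProd_cons]
      refine Commute.mul_left ?_ (ih fun q hq => h q (List.mem_cons_of_mem _ hq))
      have h1 : Commute (gen Γ p.1) (gen Γ v) := gen_comm Γ (h p List.mem_cons_self)
      exact (h1.zpow_zpow _ _)

theorem exists_sylProd (g : Raag Γ) : ∃ L : List (V × ℤ), sylProd Γ L = g := by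
  have h := Raag1_mem_closure Γ g
  induction h using Subgroup.closure_induction with
  | mem x hx =>
      obtain ⟨v, rfl⟩ := hx
      exact ⟨[(v, 1)], by simp [sylProd]⟩
  | one => exact ⟨[], rfl⟩
  | mul x y _ _ hx hy =>
      obtain ⟨L, rfl⟩ := hx
      obtain ⟨M, rfl⟩ := hy
      exact ⟨L ++ M, sylProd_append Γ L M⟩
  | inv x _ hx =>
      obtain ⟨L, rfl⟩ := hx
      refine ⟨(L.map fun p => (p.1, -p.2)).reverse, ?_⟩
      clear * -
      induction L with
      | nil => simp [sylProd]
      | cons p L ih =>
          rw [sylProd_cons, mul_inv_rev, ← ih, List.map_cons, List.reverse_cons, sylProd_append]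
          congr 1
          simp [sylProd]

/-- Every element has a reduced syllable expression. -/
theorem exists_reduced_syl (g : Raag Γ) :
    ∃ L : List (V × ℤ), sylProd Γ L = g ∧ (∀ p ∈ L, p.2 ≠ 0) ∧ (sylTr Γ L).st ≠ none := by
  classical
  have hex : ∃ n : ℕ, ∃ L : List (V × ℤ), sylProd Γ L = g ∧ L.length = n := by
    obtain ⟨L, hL⟩ := exists_sylProd Γ g
    exact ⟨_, L, hL, rfl⟩
  obtain ⟨L, hL, hn⟩ := Nat.find_spec hex
  have hmin : ∀ M : List (V × ℤ), sylProd Γ M = g → L.length ≤ M.length := by
    intro M hM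
    rw [hn]
    exact Nat.find_min' hex ⟨M, hM, rfl⟩
  refine ⟨L, hL, ?_, ?_⟩
  · rintro ⟨v, e⟩ hp rfl
    obtain ⟨L1, L2, rfl⟩ := List.append_of_mem hp
    have h1 := hmin (L1 ++ L2) (by
      rw [← hL, sylProd_append, sylProd_append, sylProd_cons]
      simp)
    simp at h1
  · intro hD
    obtain ⟨L0, v, e, L3, D, rfl, h1, h2⟩ := st_none Γ hD
    obtain ⟨L1, e', L2, rfl, h3⟩ := mem_st Γ h1 h2
    have h4 := hmin (L1 ++ (v, e' + e) :: (L2 ++ L3)) (by
      rw [← hL]
      simp only [List.append_assoc, List.cons_append, sylProd_append, sylProd_cons, zpow_add]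
      have := (sylProd_comm Γ h3 e).eq
      simp only [mul_assoc]
      rw [← mul_assoc (sylProd Γ L2), this]
      simp only [mul_assoc])
    simp only [List.length_append, List.length_cons] at h4
    omega

end Pool.Agent.H37.RG
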