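import Pool.Agent.H68.Amp.RaagDefs
import Pool.Agent.H72.UJ.Ring

/-! # The trace monoid of a finite graph -/

set_option autoImplicit false

namespace Pool.Agent.H37.RG

open Pool.Agent.H72.UJ

variable {V : Type*} (Γ : SimpleGraph V)

/-- The elementary commutations. -/
inductive CRel : FreeMonoid V → FreeMonoid V → Prop
  | swap (u v : V) (h : Γ.Adj u v) :
      CRel (FreeMonoid.of u * FreeMonoid.of v) (FreeMonoid.of v * FreeMonoid.of u)

/-- The trace monoid. -/
def Tr : Type _ := (conGen (CRel Γ)).Quotient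

noncomputable instance : Monoid (Tr Γ) := inferInstanceAs (Monoid (conGen (CRel Γ)).Quotient)

/-- The class of a word. -/
noncomputable def Tr.mk : FreeMonoid V →* Tr Γ := (conGen (CRel Γ)).mk'

theorem Tr.mk_surjective : Function.Surjective (Tr.mk Γ) := Con.mk'_surjective

/-- A letter. -/
noncomputable def Tr.of (v : V) : Tr Γ := Tr.mk Γ (FreeMonoid.of v)

theorem Tr.of_comm {u v : V} (h : Γ.Adj u v) : Tr.of Γ u * Tr.of Γ v = Tr.of Γ v * Tr.of Γ u := by
  unfold Tr.of
  rw [← map_mul, ← map_mul]
  exact (Con.eq _).2 (ConGen.Rel.of _ _ (CRel.swap u v h))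

/-- Homomorphisms out of the trace monoid. -/
noncomputable def Tr.lift {M : Type*} [Monoid M] (f : V → M) (hf : ∀ u v, Γ.Adj u v → f u * f v = f v * f u) :
    Tr Γ →* M :=
  (conGen (CRel Γ)).lift (FreeMonoid.lift f) (by
    rw [Con.conGen_le]
    rintro _ _ ⟨u, v, h⟩
    show FreeMonoid.lift f _ = FreeMonoid.lift f _
    rw [map_mul, map_mul, FreeMonoid.lift_eval_of, FreeMonoid.lift_eval_of]
    exact hf u v h)

theorem Tr.lift_mk {M : Type*} [Monoid M] (f : V → M)
    (hf : ∀ u v, Γ.Adj u v → f u * f v = f v * f u) (w : FreeMonoid V) :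
    Tr.lift Γ f hf (Tr.mk Γ w) = FreeMonoid.lift f w := rfl

theorem Tr.lift_of {M : Type*} [Monoid M] (f : V → M)
    (hf : ∀ u v, Γ.Adj u v → f u * f v = f v * f u) (v : V) :
    Tr.lift Γ f hf (Tr.of Γ v) = f v := by
  unfold Tr.of
  rw [Tr.lift_mk, FreeMonoid.lift_eval_of]

@[elab_as_elim]
theorem Tr.induction {P : Tr Γ → Prop} (h1 : P 1) (hm : ∀ v m, P m → P (Tr.of Γ v * m))
    (m : Tr Γ) : P m := by
  obtain ⟨w, rfl⟩ := Tr.mk_surjective Γ m
  induction w using FreeMonoid.inductionOn' with
  | one => rw [map_one]; exact h1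
  | of_mul v w ih => rw [map_mul]; exact hm v _ ih

@[elab_as_elim]
theorem Tr.inductionR {P : Tr Γ → Prop} (h1 : P 1) (hm : ∀ v m, P m → P (m * Tr.of Γ v))
    (m : Tr Γ) : P m := by
  obtain ⟨w, rfl⟩ := Tr.mk_surjective Γ m
  have : ∀ l : List V, P (Tr.mk Γ (FreeMonoid.ofList l)) := by
    intro l
    induction l using List.reverseRecOn with
    | nil => exact h1
    | append_singleton l v ih =>
        rw [FreeMonoid.ofList_append, map_mul]
        exact hm v _ ih
  exact this w.toList

theorem Tr.hom_ext {M : Type*} [Monoid M] {f g : Tr Γ →* M}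
    (h : ∀ v, f (Tr.of Γ v) = g (Tr.of Γ v)) : f = g := by
  ext m
  induction m using Tr.induction with
  | h1 => rw [map_one, map_one]
  | hm v m ih => rw [map_mul, map_mul, h, ih]

/-- The multiset of letters. -/
noncomputable def Tr.cntHom : Tr Γ →* Multiplicative (Multiset V) :=
  Tr.lift Γ (fun v => Multiplicative.ofAdd {v}) (fun _ _ _ => mul_comm _ _)

/-- The multiset of letters. -/
noncomputable def Tr.cnt (m : Tr Γ) : Multiset V := (Tr.cntHom Γ m).toAdd

variable {Γ}

@[simp] theorem Tr.cnt_one : (1 : Tr Γ).cnt = 0 := rfl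

@[simp] theorem Tr.cnt_of (v : V) : (Tr.of Γ v).cnt = {v} := rfl

@[simp] theorem Tr.cnt_mul (a b : Tr Γ) : (a * b).cnt = a.cnt + b.cnt := by
  unfold Tr.cnt
  rw [map_mul, toAdd_mul]

theorem Tr.cnt_eq_zero {m : Tr Γ} (h : m.cnt = 0) : m = 1 := by
  induction m using Tr.induction with
  | h1 => rfl
  | hm v m ih => simp at h

theorem Tr.exists_word (m : Tr Γ) :
    ∃ l : List V, (l : Multiset V) = m.cnt ∧ Tr.mk Γ (FreeMonoid.ofList l) = m := by
  induction m using Tr.induction with
  | h1 => exact ⟨[], rfl, rfl⟩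
  | hm v m ih =>
      obtain ⟨l, h1, h2⟩ := ih
      refine ⟨v :: l, ?_, ?_⟩
      · rw [Tr.cnt_mul, Tr.cnt_of, ← h1]
        rfl
      · rw [← h2]
        rfl

noncomputable instance [Finite V] : Gr (Tr Γ) where
  len m := m.cnt.card
  len_mul a b := by rw [Tr.cnt_mul, Multiset.card_add]
  len_zero a := by
    constructor
    · intro h
      exact Tr.cnt_eq_zero (Multiset.card_eq_zero.1 h)
    · rintro rfl
      rfl
  fin n := by
    have h := (List.finite_length_eq V n).image (fun l => Tr.mk Γ (FreeMonoid.ofList l))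
    refine h.subset ?_
    intro m hm
    obtain ⟨l, h1, h2⟩ := m.exists_word
    refine ⟨l, ?_, h2⟩
    show l.length = n
    have : m.cnt.card = n := hm
    rw [← this, ← h1, Multiset.coe_card]

theorem Tr.len_def [Finite V] (m : Tr Γ) : len m = m.cnt.card := rfl

@[simp] theorem Tr.len_of [Finite V] (v : V) : len (Tr.of Γ v) = 1 := rfl

/-! ## Reduced traces -/

open Classical in
/-- Reading a letter: the state is the set of the possible last letters. -/
noncomputable def rd (v : V) (D : Option (Set V)) : Option (Set V) :=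
  D.bind fun D => if v ∈ D then none else some (insert v (D ∩ {u | Γ.Adj u v}))

theorem rd_none (v : V) : rd (Γ := Γ) v none = none := rfl

theorem rd_some_mem {v : V} {D : Set V} (h : v ∈ D) : rd (Γ := Γ) v (some D) = none := by
  classical
  unfold rd
  rw [Option.bind_some, if_pos h]

theorem rd_some_not {v : V} {D : Set V} (h : v ∉ D) :
    rd (Γ := Γ) v (some D) = some (insert v (D ∩ {u | Γ.Adj u v})) := by
  classical
  unfold rd
  rw [Option.bind_some, if_neg h]

theorem rd_rd (v : V) (D : Option (Set V)) : rd (Γ := Γ) v (rd (Γ := Γ) v D) = none := by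
  classical
  cases D with
  | none => rfl
  | some D =>
      by_cases h : v ∈ D
      · rw [rd_some_mem h]; rfl
      · rw [rd_some_not h, rd_some_mem (Set.mem_insert _ _)]

theorem rd_comm {u v : V} (h : Γ.Adj u v) (D : Option (Set V)) :
    rd (Γ := Γ) u (rd (Γ := Γ) v D) = rd (Γ := Γ) v (rd (Γ := Γ) u D) := by
  classical
  have hne : u ≠ v := h.ne
  cases D with
  | none => rfl
  | some D =>
      by_cases hu : u ∈ D
      · by_cases hv : v ∈ D
        · rw [rd_some_mem hu, rd_some_mem hv]; rfl
        · rw [rd_some_mem hu, rd_some_not hv, rd_none]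
          apply rd_some_mem
          exact Or.inr ⟨hu, h⟩
      · by_cases hv : v ∈ D
        · rw [rd_some_mem hv, rd_some_not hu, rd_none]
          symm
          apply rd_some_mem
          exact Or.inr ⟨hv, h.symm⟩
        · rw [rd_some_not hv, rd_some_not hu, rd_some_not, rd_some_not]
          · congr 1
            ext w
            simp only [Set.mem_insert_iff, Set.mem_inter_iff, Set.mem_ofPred_eq]
            constructor
            · rintro (rfl | ⟨rfl | ⟨h1, h2⟩, h3⟩)
              · exact Or.inr ⟨Or.inl rfl, h⟩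
              · exact Or.inl rfl
              · exact Or.inr ⟨Or.inr ⟨h1, h3⟩, h2⟩
            · rintro (rfl | ⟨rfl | ⟨h1, h2⟩, h3⟩)
              · exact Or.inr ⟨Or.inl rfl, h.symm⟩
              · exact Or.inl rfl
              · exact Or.inr ⟨Or.inr ⟨h1, h3⟩, h2⟩
          · rintro (h1 | h1)
            · exact hne h1.symm
            · exact hv h1.1
          · rintro (h1 | h1)
            · exact hne h1
            · exact hu h1.1

/-- Reading a trace, from left to right. -/
noncomputable def rdHom : Tr Γ →* (Function.End (Option (Set V)))ᵐᵒᵖ :=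
  Tr.lift Γ (fun v => MulOpposite.op (rd (Γ := Γ) v)) (by
    intro u v h
    apply MulOpposite.unop_injective
    funext D
    exact rd_comm h.symm D)

/-- The state after reading a trace. -/
noncomputable def Tr.st (m : Tr Γ) : Option (Set V) := (rdHom m).unop (some ∅)

theorem Tr.st_one : (1 : Tr Γ).st = some ∅ := by
  unfold Tr.st
  rw [map_one]
  rfl

theorem Tr.st_mul_of (m : Tr Γ) (v : V) : (m * Tr.of Γ v).st = rd (Γ := Γ) v m.st := by
  unfold Tr.st
  rw [map_mul]
  unfold rdHom
  rw [Tr.lift_of]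
  rfl

theorem Tr.st_mul_of_of (m : Tr Γ) (v : V) : (m * Tr.of Γ v * Tr.of Γ v).st = none := by
  rw [Tr.st_mul_of, Tr.st_mul_of, rd_rd]

theorem Tr.st_mul {m : Tr Γ} (h : m.st = none) (m' : Tr Γ) : (m * m').st = none := by
  induction m' using Tr.inductionR with
  | h1 => rw [mul_one]; exact h
  | hm v m' ih => rw [← mul_assoc, Tr.st_mul_of, ih]; rfl

end Pool.Agent.H37.RG
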